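import Pool.Agent.CGD.SFinal

/-!
# MP_25255b_gt, Q1: one-parameter families of metrics of revolution on the sphere

For every smooth metric of revolution `dr² + f(r)² dθ²` on `S²`, an explicit one-parameter family of
metrics of revolution through it, with the same distance `L` between the poles.  The definitions are
in `Pool/Agent/CGD/SDefs.lean`.
-/

namespace Pool.Agent.Results.MP_25255b_gt.SphereFamilies

open Pool.Agent.CGD

theorem result (L : ℝ) (hL : 0 < L) (g : SphMetric L) :
    -- all members of the family, except countably many, have dense closed geodesics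
    (∃ N : Set ℝ, N.Countable ∧ ∀ t ∉ N, (∀ x, 0 < 1 + t * g.f x ^ 2) →
      ∃ g' : SphMetric L, (∀ x, g'.f x = g.f x / √(1 + t * g.f x ^ 2)) ∧ DenseS g') ∧
    -- the family is defined for all small `t` and tends to `g` in every `C^k` topology
    (∀ (k : ℕ) (ε : ℝ), 0 < ε → ∃ δ > 0, ∀ t : ℝ, |t| ≤ δ → (∀ x, 0 < 1 + t * g.f x ^ 2) ∧
      ∃ g' : SphMetric L, (∀ x, g'.f x = g.f x / √(1 + t * g.f x ^ 2)) ∧ CkCloseS k ε g g') := by
  constructor
  · obtain ⟨N, hN, H⟩ := s_all_but_countable hL g
    exact ⟨N, hN, fun t ht hpos => ⟨g.shift t hpos, fun _ => rfl,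
      H t ht _ hpos (fun _ => rfl)⟩⟩
  · intro k ε hε
    obtain ⟨δ, hδ, H⟩ := sshift_close hL g k ε hε
    refine ⟨δ, hδ, fun t ht => ?_⟩
    obtain ⟨hpos, hc⟩ := H t ht
    exact ⟨hpos, g.shift t hpos, fun _ => rfl, hc⟩

end Pool.Agent.Results.MP_25255b_gt.SphereFamilies
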