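import Pool.Agent.CGD.SFinal

/-!
# MP_25255b_gt, Q1 for spheres of revolution

Genericity inside the space of all smooth metrics of revolution `dr² + f(r)² dθ²` on `S²` with given
distance `L` between the poles.  The definitions are in `Pool/Agent/CGD/SDefs.lean`.
-/

namespace Pool.Agent.Results.MP_25255b_gt.SphereInvariant

open Pool.Agent.CGD

theorem result (L : ℝ) (hL : 0 < L) :
    -- the metrics with dense closed geodesics form a residual set for the `C^∞` topology
    ({g : SphMetric L | DenseS g} ∈ residual (SphMetric L)) ∧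
    -- it contains the intersection of countably many `C¹`-open and `C^∞`-dense sets
    (∃ S : ℕ → Set (SphMetric L),
      (∀ n, ∀ g ∈ S n, ∃ ε > 0, ∀ g', CkCloseS 1 ε g g' → g' ∈ S n) ∧
      (∀ n, ∀ g : SphMetric L, ∀ k : ℕ, ∀ ε > 0, ∃ g' ∈ S n, CkCloseS k ε g g') ∧
      ∀ g, (∀ n, g ∈ S n) → DenseS g) ∧
    -- such metrics are dense in every `C^k` topology
    (∀ (g : SphMetric L) (k : ℕ) (ε : ℝ), 0 < ε →
      ∃ g' : SphMetric L, CkCloseS k ε g g' ∧ DenseS g') ∧
    -- the metrics whose closed geodesics are not dense are `C²`-dense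
    (∀ (g : SphMetric L) (ε : ℝ), 0 < ε →
      ∃ g' : SphMetric L, CkCloseS 2 ε g g' ∧ ¬ DenseS g') :=
  ⟨(sphere_final L hL).1, (sphere_final L hL).2.1, (sphere_final L hL).2.2.2.1,
    (sphere_final L hL).2.2.2.2⟩

end Pool.Agent.Results.MP_25255b_gt.SphereInvariant
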