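import Pool.Agent.CGD.Final

/-!
# MP_25255b_gt, Q1: one-parameter families of circle-invariant metrics on the torus

For every smooth metric `a dx² + 2 b dx dy + c dy²` on `T² = ℝ²/ℤ²` with coefficients depending only
on `x`, an explicit one-parameter family of such metrics through it.  The definitions are in
`Pool/Agent/CGD/Defs.lean`.
-/

namespace Pool.Agent.Results.MP_25255b_gt.TorusFamilies

open Pool.Agent.CGD

theorem result (g : InvMetric) :
    -- all members of the family, except countably many, have dense closed geodesics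
    (∃ N : Set ℝ, N.Countable ∧ ∀ t ∉ N, (∀ x, 0 < 1 + t * g.c x) →
      ∃ g' : InvMetric,
        (∀ x, g'.a x = g.a x - t * g.b x ^ 2 / (1 + t * g.c x)) ∧
        (∀ x, g'.b x = g.b x / (1 + t * g.c x)) ∧
        (∀ x, g'.c x = g.c x / (1 + t * g.c x)) ∧ Dense (CG g')) ∧
    -- the family is defined for all small `t` and tends to `g` in every `C^k` topology
    (∀ (k : ℕ) (ε : ℝ), 0 < ε → ∃ δ > 0, ∀ t : ℝ, |t| ≤ δ → (∀ x, 0 < 1 + t * g.c x) ∧
      ∃ g' : InvMetric,
        (∀ x, g'.a x = g.a x - t * g.b x ^ 2 / (1 + t * g.c x)) ∧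
        (∀ x, g'.b x = g.b x / (1 + t * g.c x)) ∧
        (∀ x, g'.c x = g.c x / (1 + t * g.c x)) ∧ CkClose k ε g g') := by
  constructor
  · obtain ⟨N, hN, H⟩ := all_but_countable g
    exact ⟨N, hN, fun t ht hpos => ⟨g.shift t hpos, fun _ => rfl, fun _ => rfl, fun _ => rfl,
      H t ht _ hpos (fun _ => rfl) (fun _ => rfl) fun _ => rfl⟩⟩
  · intro k ε hε
    obtain ⟨δ, hδ, H⟩ := shift_close g k ε hε
    refine ⟨δ, hδ, fun t ht => ?_⟩
    obtain ⟨hpos, hc⟩ := H t ht
    exact ⟨hpos, g.shift t hpos, fun _ => rfl, fun _ => rfl, fun _ => rfl, hc⟩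

end Pool.Agent.Results.MP_25255b_gt.TorusFamilies
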