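import Pool.Agent.CGD.Final

/-!
# MP_25255b_gt, Q1 for circle-invariant metrics on the two-dimensional torus

Genericity inside the space of all smooth metrics `a dx² + 2 b dx dy + c dy²` on `T² = ℝ²/ℤ²` with
coefficients depending only on `x`.  The definitions are in `Pool/Agent/CGD/Defs.lean`.
-/

namespace Pool.Agent.Results.MP_25255b_gt.TorusInvariant

open Pool.Agent.CGD

theorem result :
    -- the metrics with dense closed geodesics form a residual set for the `C^∞` topology
    ({g : InvMetric | Dense (CG g)} ∈ residual InvMetric) ∧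
    -- it contains the intersection of countably many `C¹`-open and `C^∞`-dense sets
    (∃ S : ℕ → Set InvMetric,
      (∀ n, ∀ g ∈ S n, ∃ ε > 0, ∀ g', CkClose 1 ε g g' → g' ∈ S n) ∧
      (∀ n, ∀ g : InvMetric, ∀ k : ℕ, ∀ ε > 0, ∃ g' ∈ S n, CkClose k ε g g') ∧
      ∀ g, (∀ n, g ∈ S n) → Dense (CG g)) ∧
    -- such metrics are dense in every `C^k` topology
    (∀ (g : InvMetric) (k : ℕ) (ε : ℝ), 0 < ε →
      ∃ g' : InvMetric, CkClose k ε g g' ∧ Dense (CG g')) ∧
    -- the metrics whose closed geodesics are not dense are `C²`-dense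
    (∀ (g : InvMetric) (ε : ℝ), 0 < ε →
      ∃ g' : InvMetric, CkClose 2 ε g g' ∧ ¬ Dense (CG g')) :=
  ⟨torus_final.1, torus_final.2.1, torus_final.2.2.2.1, torus_final.2.2.2.2⟩

end Pool.Agent.Results.MP_25255b_gt.TorusInvariant
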